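import Mathlib
import Pool.Agent.Y734.I.StmsB
import Pool.Agent.Y734.I.Trd
import Pool.Agent.Y734.I.Pl

/-!
# Project Y734/I, job ALGB
-/

set_option autoImplicit false

namespace Pool.Agent.Y734.I.ALGB

open MvPolynomial Pool.Agent.Y734.I

attribute [-instance] DivisionRing.toRatAlgebra

/-- the scalar product -/
def dt (a b : Fin 3 → ℚ) : ℚ := a 0 * b 0 + a 1 * b 1 + a 2 * b 2

section mult

variable {Ω : Type} [Field Ω] [Algebra ℚ Ω]

/-- a criterion for multiplicative independence -/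
lemma mult_indep (P : Fin 3 → Ω) (hP : Gnr P) (A D : Fin 3 → MvPolynomial (Fin 3) ℚ)
    (hA : ∀ i, (A i).IsHomogeneous 2) (hD : ∀ i, (D i).IsHomogeneous 2)
    (hv : ∀ i, ∃ v : Fin 3 → ℚ, eval v (A i) = 0 ∧ (∀ j, eval v (D j) ≠ 0) ∧
      ∀ j, j ≠ i → eval v (A j) ≠ 0) (e : Fin 3 → ℤ) (he : e ≠ 0) (a : ℚ) :
    ∏ i, (aeval P (A i) / aeval P (D i)) ^ e i ≠ algebraMap ℚ Ω a := by
  have hA0 : ∀ i, A i ≠ 0 := by
    intro i h
    obtain ⟨v, -, -, h3⟩ := hv (i + 1)
    refine h3 i ?_ (by rw [h, map_zero])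
    fin_cases i <;> decide
  have hD0 : ∀ i, D i ≠ 0 := by
    intro i h
    obtain ⟨v, -, h2, -⟩ := hv 0
    exact h2 i (by rw [h, map_zero])
  have hA1 : ∀ i, aeval P (A i) ≠ 0 := fun i => hP _ _ (hA i) (hA0 i)
  have hD1 : ∀ i, aeval P (D i) ≠ 0 := fun i => hP _ _ (hD i) (hD0 i)
  intro hcon
  have ha : a ≠ 0 := by
    rintro rfl
    rw [map_zero, Finset.prod_eq_zero_iff] at hcon
    obtain ⟨i, -, hi⟩ := hcon
    exact zpow_ne_zero _ (div_ne_zero (hA1 i) (hD1 i)) hi
  -- the polynomial identity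
  let G₁ : MvPolynomial (Fin 3) ℚ := ∏ i, (A i ^ (e i).toNat * D i ^ (-e i).toNat)
  let G₂ : MvPolynomial (Fin 3) ℚ := ∏ i, (A i ^ (-e i).toNat * D i ^ (e i).toNat)
  have key : ∀ i, (aeval P (A i) / aeval P (D i)) ^ e i *
      (aeval P (A i) ^ (-e i).toNat * aeval P (D i) ^ (e i).toNat) =
      aeval P (A i) ^ (e i).toNat * aeval P (D i) ^ (-e i).toNat := by
    intro i
    have h1 := hA1 i
    have h2 := hD1 i
    rcases le_total 0 (e i) with h | h
    · obtain ⟨n, hn⟩ := Int.eq_ofNat_of_zero_le h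
      rw [hn]
      have e1 : (-(n : ℤ)).toNat = 0 := by omega
      rw [e1]
      simp only [Int.toNat_natCast, pow_zero, one_mul, mul_one, zpow_natCast]
      rw [div_pow, div_mul_cancel₀ _ (pow_ne_zero _ h2)]
    · obtain ⟨n, hn⟩ := Int.eq_ofNat_of_zero_le (show 0 ≤ -e i by omega)
      have hn' : e i = -(n : ℤ) := by omega
      rw [hn']
      have e1 : (-(n : ℤ)).toNat = 0 := by omega
      rw [e1]
      simp only [neg_neg, Int.toNat_natCast, pow_zero, one_mul, mul_one, zpow_neg, zpow_natCast]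
      rw [div_pow, inv_div, div_mul_cancel₀ _ (pow_ne_zero _ h1)]
  have hG : aeval P (G₁ - C a * G₂) = 0 := by
    have h1 : aeval P G₁ = ∏ i, (aeval P (A i) ^ (e i).toNat * aeval P (D i) ^ (-e i).toNat) := by
      simp only [G₁, map_prod, map_mul, map_pow]
    have h2 : aeval P G₂ = ∏ i, (aeval P (A i) ^ (-e i).toNat * aeval P (D i) ^ (e i).toNat) := by
      simp only [G₂, map_prod, map_mul, map_pow]
    rw [map_sub, map_mul, h1, h2, ← Finset.prod_congr rfl fun i _ => key i, Finset.prod_mul_distrib,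
      hcon, aeval_C, sub_self]
  have hhom : (G₁ - C a * G₂).IsHomogeneous (∑ i, (2 * (e i).toNat + 2 * (-e i).toNat)) := by
    refine IsHomogeneous.sub ?_ ?_
    · exact IsHomogeneous.prod _ _ _ fun i _ => ((hA i).pow _).mul ((hD i).pow _)
    · have h1 := (isHomogeneous_C (Fin 3) a).mul
        (IsHomogeneous.prod Finset.univ (fun i => A i ^ (-e i).toNat * D i ^ (e i).toNat)
          (fun i => 2 * (-e i).toNat + 2 * (e i).toNat)
          fun i _ => ((hA i).pow _).mul ((hD i).pow _))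
      rw [zero_add] at h1
      have h2 : ∑ i, (2 * (-e i).toNat + 2 * (e i).toNat) =
          ∑ i, (2 * (e i).toNat + 2 * (-e i).toNat) :=
        Finset.sum_congr rfl fun i _ => add_comm _ _
      rw [h2] at h1
      exact h1
  have h0 : G₁ - C a * G₂ = 0 := by
    by_contra hne
    exact hP _ _ hhom hne hG
  have hev : ∀ v : Fin 3 → ℚ, ∏ i, (eval v (A i) ^ (e i).toNat * eval v (D i) ^ (-e i).toNat) =
      a * ∏ i, (eval v (A i) ^ (-e i).toNat * eval v (D i) ^ (e i).toNat) := by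
    intro v
    have h1 := congrArg (eval v) (sub_eq_zero.1 h0)
    simpa only [G₁, G₂, map_prod, map_mul, map_pow, eval_C] using h1
  apply he
  funext i
  obtain ⟨v, h1, h2, h3⟩ := hv i
  have h4 := hev v
  by_contra hi
  have hi' : e i ≠ 0 := hi
  rcases lt_or_gt_of_ne hi' with h | h
  · have e1 : (e i).toNat = 0 := by omega
    have e2 : (-e i).toNat ≠ 0 := by omega
    have h5 : ∏ i, (eval v (A i) ^ (-e i).toNat * eval v (D i) ^ (e i).toNat) = 0 :=
      Finset.prod_eq_zero (Finset.mem_univ i) (by rw [h1, zero_pow e2, zero_mul])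
    rw [h5, mul_zero, Finset.prod_eq_zero_iff] at h4
    obtain ⟨j, -, hj⟩ := h4
    rcases mul_eq_zero.1 hj with hj | hj
    · by_cases hji : j = i
      · rw [hji, e1, pow_zero] at hj
        exact one_ne_zero hj
      · exact pow_ne_zero _ (h3 j hji) hj
    · exact pow_ne_zero _ (h2 j) hj
  · have e1 : (-e i).toNat = 0 := by omega
    have e2 : (e i).toNat ≠ 0 := by omega
    have h5 : ∏ i, (eval v (A i) ^ (e i).toNat * eval v (D i) ^ (-e i).toNat) = 0 :=
      Finset.prod_eq_zero (Finset.mem_univ i) (by rw [h1, zero_pow e2, zero_mul])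
    rw [h5] at h4
    have h6 := (mul_eq_zero.1 h4.symm).resolve_left ha
    rw [Finset.prod_eq_zero_iff] at h6
    obtain ⟨j, -, hj⟩ := h6
    rcases mul_eq_zero.1 hj with hj | hj
    · by_cases hji : j = i
      · rw [hji, e1, pow_zero] at hj
        exact one_ne_zero hj
      · exact pow_ne_zero _ (h3 j hji) hj
    · exact pow_ne_zero _ (h2 j) hj

lemma ev3 (l : Fin 3 → ℚ) (x : Fin 3 → Ω) : ev (N := 2) l x =
    algebraMap ℚ Ω (l 0) * x 0 + algebraMap ℚ Ω (l 1) * x 1 + algebraMap ℚ Ω (l 2) * x 2 := by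
  unfold ev
  exact Fin.sum_univ_three _

lemma ev_comb (a b : ℚ) (l l' : Fin 3 → ℚ) (x : Fin 3 → Ω) : ev (N := 2) (a • l + b • l') x =
    algebraMap ℚ Ω a * ev (N := 2) l x + algebraMap ℚ Ω b * ev (N := 2) l' x := by
  simp only [ev3, Pi.add_apply, Pi.smul_apply, smul_eq_mul, map_add, map_mul]
  ring

lemma pick (p q : Fin 5 → ℚ) (hp : ∀ k, p k ≠ 0) : ∃ z : ℚ, ∀ k, p k * z + q k ≠ 0 := by
  obtain ⟨z, hz⟩ := Infinite.exists_notMem_finset (Finset.univ.image fun k => -q k / p k)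
  refine ⟨z, fun k h => hz ?_⟩
  rw [Finset.mem_image]
  refine ⟨k, Finset.mem_univ _, ?_⟩
  rw [div_eq_iff (hp k)]
  linear_combination -h

lemma surj (l : Fin 3 → Fin 3 → ℚ) (hl : LinearIndependent ℚ l) (w : Fin 3 → ℚ) :
    ∃ v : Fin 3 → ℚ, ∀ i, eval v (Pool.Agent.Y734.lin (n := 2) (l i)) = w i := by
  have h1 : IsUnit (Matrix.of l) := Matrix.linearIndependent_rows_iff_isUnit.1 hl
  have h2 := (Matrix.isUnit_iff_isUnit_det _).1 h1
  refine ⟨(Matrix.of l)⁻¹.mulVec w, fun i => ?_⟩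
  have h3 : (Matrix.of l).mulVec ((Matrix.of l)⁻¹.mulVec w) = w := by
    rw [Matrix.mulVec_mulVec, Matrix.mul_nonsing_inv _ h2, Matrix.one_mulVec]
  have h4 := congrFun h3 i
  rw [← h4]
  simp [Pool.Agent.Y734.lin, Matrix.mulVec, dotProduct]

theorem core (l : Fin 3 → Fin 3 → ℚ) (hl : LinearIndependent ℚ l) (s t κ : Fin 3 → ℚ)
    (hs : ∀ i, s i ≠ 0) (ht : ∀ i, t i ≠ 0) (hκ : ∀ i, κ i ≠ 0) (P Q : Fin 3 → Ω) (hP : Gnr P)
    (hQ : Gnr Q) (b : Ω)
    (hb : ∀ i, ev (N := 2) (l i) P * ev (N := 2) (l i) Q = b * algebraMap ℚ Ω (κ i))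
    (A : Fin 3 → Fin 3 → ℚ) (hA : ∀ i, A i = s i • l (i + 1) + t i • l (i + 2)) :
    (∀ e : Fin 3 → ℤ, e ≠ 0 → ∀ a : ℚ,
      ∏ i, (pr (A i) P Q / pr (l 0) P Q) ^ e i ≠ algebraMap ℚ Ω a) ∧
    ¬ AlgebraicIndependent ℚ (fun i => pr (A i) P Q / pr (l 0) P Q) := by
  have hl0 : ∀ i, l i ≠ 0 := fun i => hl.ne_zero i
  let Y : Fin 3 → MvPolynomial (Fin 3) ℚ := fun i => Pool.Agent.Y734.lin (n := 2) (l i)
  have hYh : ∀ i, (Y i).IsHomogeneous 1 := fun i => lin_hom (l i)
  have hY0 : ∀ i, Y i ≠ 0 := by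
    intro i h
    obtain ⟨v, hv⟩ := surj l hl (fun _ => 1)
    have := hv i
    rw [show Pool.Agent.Y734.lin (n := 2) (l i) = 0 from h, map_zero] at this
    exact zero_ne_one this
  have hx : ∀ i, aeval P (Y i) = ev (N := 2) (l i) P := fun i => aeval_lin _ _
  have hy : ∀ i, aeval Q (Y i) = ev (N := 2) (l i) Q := fun i => aeval_lin _ _
  have hx0 : ∀ i, ev (N := 2) (l i) P ≠ 0 := fun i => by
    rw [← hx]
    exact hP _ _ (hYh i) (hY0 i)
  have hy0 : ∀ i, ev (N := 2) (l i) Q ≠ 0 := fun i => by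
    rw [← hy]
    exact hQ _ _ (hYh i) (hY0 i)
  have hb0 : b ≠ 0 := by
    rintro rfl
    have := hb 0
    rw [zero_mul] at this
    exact mul_ne_zero (hx0 0) (hy0 0) this
  have hinj : ∀ r : ℚ, r ≠ 0 → algebraMap ℚ Ω r ≠ 0 := fun r hr =>
    (map_ne_zero_iff _ (algebraMap ℚ Ω).injective).2 hr
  let NA : Fin 3 → MvPolynomial (Fin 3) ℚ := fun i =>
    (C (s i) * Y (i + 1) + C (t i) * Y (i + 2)) *
      (C (s i * κ (i + 1)) * Y (i + 2) + C (t i * κ (i + 2)) * Y (i + 1))
  let ND : Fin 3 → MvPolynomial (Fin 3) ℚ := fun i => (C (κ 0) * Y (i + 1)) * Y (i + 2)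
  have hC : ∀ (r : ℚ) i, (C r * Y i).IsHomogeneous 1 := by
    intro r i
    have := (isHomogeneous_C (Fin 3) r).mul (hYh i)
    rwa [zero_add] at this
  have hNA : ∀ i, (NA i).IsHomogeneous 2 := fun i =>
    ((hC _ _).add (hC _ _)).mul ((hC _ _).add (hC _ _))
  have hND : ∀ i, (ND i).IsHomogeneous 2 := fun i => (hC _ _).mul (hYh _)
  have aNA : ∀ i, aeval P (NA i) = (algebraMap ℚ Ω (s i) * ev (N := 2) (l (i + 1)) P +
      algebraMap ℚ Ω (t i) * ev (N := 2) (l (i + 2)) P) *
      (algebraMap ℚ Ω (s i) * algebraMap ℚ Ω (κ (i + 1)) * ev (N := 2) (l (i + 2)) P +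
        algebraMap ℚ Ω (t i) * algebraMap ℚ Ω (κ (i + 2)) * ev (N := 2) (l (i + 1)) P) := by
    intro i
    simp only [NA, map_mul, map_add, hx, aeval_C]
  have aND : ∀ i, aeval P (ND i) = (algebraMap ℚ Ω (κ 0) * ev (N := 2) (l (i + 1)) P) *
      ev (N := 2) (l (i + 2)) P := by
    intro i
    simp only [ND, map_mul, hx, aeval_C]
  have hF : ∀ i, pr (A i) P Q / pr (l 0) P Q = aeval P (NA i) / aeval P (ND i) := by
    intro i
    rw [div_eq_div_iff]
    · rw [aNA, aND, hA]
      unfold pr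
      rw [ev_comb, ev_comb, hb 0]
      linear_combination (algebraMap ℚ Ω (s i) * ev (N := 2) (l (i + 1)) P +
        algebraMap ℚ Ω (t i) * ev (N := 2) (l (i + 2)) P) * algebraMap ℚ Ω (κ 0) *
        (algebraMap ℚ Ω (s i) * ev (N := 2) (l (i + 2)) P * hb (i + 1) +
         algebraMap ℚ Ω (t i) * ev (N := 2) (l (i + 1)) P * hb (i + 2))
    · exact mul_ne_zero (hx0 0) (hy0 0)
    · rw [aND]
      exact mul_ne_zero (mul_ne_zero (hinj _ (hκ 0)) (hx0 _)) (hx0 _)
  refine ⟨?_, ?_⟩
  · intro e he a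
    rw [Finset.prod_congr rfl fun i _ => by rw [hF i]]
    refine mult_indep P hP NA ND hNA hND ?_ e he a
    intro i
    obtain ⟨z, hz⟩ := pick
      ![1, t (i + 1), s (i + 1) * κ (i + 2), s (i + 2), t (i + 2) * κ (i + 1)]
      ![0, s (i + 1) * (-s i), t (i + 1) * κ i * (-s i), t (i + 2) * t i,
        s (i + 2) * κ i * t i] (by
        intro k
        fin_cases k
        · exact one_ne_zero
        · exact ht _
        · exact mul_ne_zero (hs _) (hκ _)
        · exact hs _
        · exact mul_ne_zero (ht _) (hκ _))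
    have z0 : z ≠ 0 := by simpa using hz 0
    have z1 : t (i + 1) * z + s (i + 1) * (-s i) ≠ 0 := hz 1
    have z2 : s (i + 1) * κ (i + 2) * z + t (i + 1) * κ i * (-s i) ≠ 0 := hz 2
    have z3 : s (i + 2) * z + t (i + 2) * t i ≠ 0 := hz 3
    have z4 : t (i + 2) * κ (i + 1) * z + s (i + 2) * κ i * t i ≠ 0 := hz 4
    obtain ⟨v, hv⟩ := surj l hl (fun k => if k = i then z else if k = i + 1 then t i else -s i)
    have hv' : ∀ k, eval v (Y k) = if k = i then z else if k = i + 1 then t i else -s i := hv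
    have v0 : eval v (Y i) = z := by rw [hv', if_pos rfl]
    have v1 : eval v (Y (i + 1)) = t i := by
      rw [hv', if_neg (by fin_cases i <;> decide), if_pos rfl]
    have v2 : eval v (Y (i + 2)) = -s i := by
      rw [hv', if_neg (by fin_cases i <;> decide), if_neg (by fin_cases i <;> decide)]
    have q1 : i + 1 + 1 = i + 2 := by fin_cases i <;> decide
    have q2 : i + 1 + 2 = i := by fin_cases i <;> decide
    have q3 : i + 2 + 1 = i := by fin_cases i <;> decide
    have q4 : i + 2 + 2 = i + 1 := by fin_cases i <;> decide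
    have hcases : ∀ j : Fin 3, j = i ∨ j = i + 1 ∨ j = i + 2 := by
      intro j
      fin_cases i <;> fin_cases j <;> decide
    refine ⟨v, ?_, ?_, ?_⟩
    · simp only [NA, map_mul, map_add, eval_C, v1, v2]
      ring
    · intro j
      simp only [ND, map_mul, eval_C]
      refine mul_ne_zero (mul_ne_zero (hκ 0) ?_) ?_
      · rcases hcases (j + 1) with h | h | h <;> rw [h]
        · rwa [v0]
        · rw [v1]; exact ht i
        · rw [v2]; exact neg_ne_zero.2 (hs i)
      · rcases hcases (j + 2) with h | h | h <;> rw [h]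
        · rwa [v0]
        · rw [v1]; exact ht i
        · rw [v2]; exact neg_ne_zero.2 (hs i)
    · intro j hj
      rcases hcases j with h | h | h
      · exact absurd h hj
      · rw [h]
        simp only [NA, map_mul, map_add, eval_C, q1, q2, v0, v2]
        refine mul_ne_zero ?_ ?_
        · intro h0
          apply z1
          linear_combination h0
        · intro h0
          apply z2
          linear_combination h0
      · rw [h]
        simp only [NA, map_mul, map_add, eval_C, q3, q4, v0, v1]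
        refine mul_ne_zero ?_ ?_
        · intro h0
          apply z3
          linear_combination h0
        · intro h0
          apply z4
          linear_combination h0
  · intro hind
    let u : Fin 3 → Ω := fun i => ev (N := 2) (l i) P / ev (N := 2) (l 0) P
    let S : Set Ω := {u 1, u 2}
    have hu : ∀ i, u i ∈ IntermediateField.adjoin ℚ S := by
      intro i
      have hcases : i = 0 ∨ i = 1 ∨ i = 2 := by fin_cases i <;> decide
      rcases hcases with rfl | rfl | rfl
      · have : u 0 = 1 := div_self (hx0 0)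
        rw [this]
        exact one_mem _
      · exact IntermediateField.subset_adjoin ℚ S (by simp [S])
      · exact IntermediateField.subset_adjoin ℚ S (by simp [S])
    have hxu : ∀ i, ev (N := 2) (l i) P = u i * ev (N := 2) (l 0) P := fun i =>
      (div_mul_cancel₀ _ (hx0 0)).symm
    have hu0 : ∀ i, u i ≠ 0 := fun i => div_ne_zero (hx0 i) (hx0 0)
    have hmem : ∀ i, pr (A i) P Q / pr (l 0) P Q ∈ IntermediateField.adjoin ℚ S := by
      intro i
      have h1 : pr (A i) P Q / pr (l 0) P Q =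
          ((algebraMap ℚ Ω (s i) * u (i + 1) + algebraMap ℚ Ω (t i) * u (i + 2)) *
          (algebraMap ℚ Ω (s i) * algebraMap ℚ Ω (κ (i + 1)) * u (i + 2) +
          algebraMap ℚ Ω (t i) * algebraMap ℚ Ω (κ (i + 2)) * u (i + 1))) /
          (algebraMap ℚ Ω (κ 0) * u (i + 1) * u (i + 2)) := by
        rw [hF i, aNA, aND, hxu (i + 1), hxu (i + 2), div_eq_div_iff]
        · ring
        · exact mul_ne_zero (mul_ne_zero (hinj _ (hκ 0)) (mul_ne_zero (hu0 _) (hx0 0)))
            (mul_ne_zero (hu0 _) (hx0 0))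
        · exact mul_ne_zero (mul_ne_zero (hinj _ (hκ 0)) (hu0 _)) (hu0 _)
      rw [h1]
      have ha : ∀ r : ℚ, algebraMap ℚ Ω r ∈ IntermediateField.adjoin ℚ S := fun r =>
        IntermediateField.algebraMap_mem _ r
      exact div_mem (mul_mem (add_mem (mul_mem (ha _) (hu _)) (mul_mem (ha _) (hu _)))
        (add_mem (mul_mem (mul_mem (ha _) (ha _)) (hu _))
          (mul_mem (mul_mem (ha _) (ha _)) (hu _))))
        (mul_mem (mul_mem (ha _) (hu _)) (hu _))
    have h3 := le_trd (s := S) hind hmem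
    have h4 := trd_le_card S
    have h5 : Cardinal.mk S ≤ 2 := by
      refine Cardinal.mk_insert_le.trans ?_
      rw [Cardinal.mk_singleton]
      norm_num
    have h6 := (h3.trans h4).trans h5
    norm_num at h6

end mult

end Pool.Agent.Y734.I.ALGB
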