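import Mathlib
import Pool.Agent.Y734.I.ALGB.Main

/-!
# Project Y734/I, job ALGB: the three vertices are not collinear
-/

set_option autoImplicit false

namespace Pool.Agent.Y734.I.ALGB

open MvPolynomial Pool.Agent.Y734.I

attribute [-instance] DivisionRing.toRatAlgebra

lemma det_ne {a b c : Fin 3 → ℚ} (h : LinearIndependent ℚ ![a, b, c]) : dt a (crs b c) ≠ 0 := by
  have h1 : IsUnit (Matrix.of ![a, b, c]) := Matrix.linearIndependent_rows_iff_isUnit.1 h
  have h2 := ((Matrix.isUnit_iff_isUnit_det _).1 h1).ne_zero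
  rw [Matrix.det_fin_three] at h2
  intro h0
  apply h2
  simp only [dt, crs, Matrix.of_apply, Matrix.cons_val] at h0 ⊢
  linear_combination h0

lemma dt_self (a b : Fin 3 → ℚ) : dt a (crs a b) = 0 ∧ dt b (crs a b) = 0 := by
  constructor <;>
  · simp only [dt, crs, Matrix.cons_val]
    ring

/-- Binet-Cauchy -/
lemma bc (a b u v : Fin 3 → ℚ) : dt a u * dt b v - dt b u * dt a v = dt (crs a b) (crs u v) := by
  simp only [dt, crs, Matrix.cons_val]
  ring

lemma dt_rot (u v w : Fin 3 → ℚ) : dt u (crs v w) = dt v (crs w u) := by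
  simp only [dt, crs, Matrix.cons_val]
  ring

lemma cases3 (j : Fin 3) : j = 0 ∨ j = 1 ∨ j = 2 := by
  fin_cases j <;> decide

lemma expand (u v w h : Fin 3 → ℚ) : dt u (crs v w) • h =
    dt h u • crs v w + dt h v • crs w u + dt h w • crs u v := by
  funext j
  simp only [Pi.add_apply, Pi.smul_apply, smul_eq_mul]
  rcases cases3 j with rfl | rfl | rfl <;>
  · simp only [dt, crs, Matrix.cons_val]
    ring

lemma dt_smul (a : ℚ) (u v : Fin 3 → ℚ) : dt (a • u) v = a * dt u v := by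
  simp only [dt, Pi.smul_apply, smul_eq_mul]
  ring

lemma dt_add (u u' v : Fin 3 → ℚ) : dt (u + u') v = dt u v + dt u' v := by
  simp only [dt, Pi.add_apply]
  ring

lemma dt_comm (u v : Fin 3 → ℚ) : dt u v = dt v u := by
  simp only [dt]
  ring

lemma rel2 (A B : Fin 3 → Fin 3 → ℚ) (a b : Fin 3 → ℚ)
    (h : ∀ j k, ∑ i, (a i * (A i j * A i k) + b i * (B i j * B i k)) = 0) (u v : Fin 3 → ℚ) :
    ∑ i, (a i * (dt (A i) u * dt (A i) v) + b i * (dt (B i) u * dt (B i) v)) = 0 := by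
  simp only [Fin.sum_univ_three, dt] at h ⊢
  linear_combination u 0 * v 0 * h 0 0 + u 0 * v 1 * h 0 1 + u 0 * v 2 * h 0 2 +
    u 1 * v 0 * h 1 0 + u 1 * v 1 * h 1 1 + u 1 * v 2 * h 1 2 +
    u 2 * v 0 * h 2 0 + u 2 * v 1 * h 2 1 + u 2 * v 2 * h 2 2

theorem cyc {Ω : Type} [Field Ω] [Algebra ℚ Ω] (A B : Fin 3 → Fin 3 → ℚ) (a b : Fin 3 → ℚ)
    (ha : ∀ i, a i ≠ 0) (V : Fin 3 → Fin 3 → ℚ)
    (hV : ∀ i, V i = crs (A i) (B i)) (hΔ : dt (V 0) (crs (V 1) (V 2)) ≠ 0)
    (hAV : ∀ i j, i ≠ j → dt (A i) (V j) ≠ 0)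
    (hrel : ∀ j k, ∑ i, (a i * (A i j * A i k) + b i * (B i j * B i k)) = 0)
    (P Q : Fin 3 → Ω) (hP : Gnr P) (hQ : Gnr Q)
    (h : ∀ i, algebraMap ℚ Ω (a i) * pr (A i) P Q + algebraMap ℚ Ω (b i) * pr (B i) P Q = 0) :
    ∃ (l : Fin 3 → Fin 3 → ℚ) (κ : Fin 3 → ℚ), LinearIndependent ℚ l ∧ (∀ i, κ i ≠ 0) ∧
      (∀ i j, algebraMap ℚ Ω (κ j) * pr (l i) P Q = algebraMap ℚ Ω (κ i) * pr (l j) P Q) ∧
      (∀ i, A i ∈ Submodule.span ℚ {l (i + 1), l (i + 2)}) ∧
      (∀ e : Fin 3 → ℤ, e ≠ 0 → ∀ a : ℚ,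
        ∏ i, (pr (A i) P Q / pr (l 0) P Q) ^ e i ≠ algebraMap ℚ Ω a) ∧
      ¬ AlgebraicIndependent ℚ (fun i => pr (A i) P Q / pr (l 0) P Q) := by
  set Δ := dt (V 0) (crs (V 1) (V 2)) with hΔdef
  have e11 : (1 : Fin 3) + 1 = 2 := rfl
  have e12 : (1 : Fin 3) + 2 = 0 := rfl
  have e21 : (2 : Fin 3) + 1 = 0 := rfl
  have e22 : (2 : Fin 3) + 2 = 1 := rfl
  have hz : ∀ i, dt (A i) (V i) = 0 ∧ dt (B i) (V i) = 0 := by
    intro i
    rw [hV]
    exact dt_self _ _
  let l : Fin 3 → Fin 3 → ℚ := fun i => Δ⁻¹ • crs (V (i + 1)) (V (i + 2))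
  have l0 : l 0 = Δ⁻¹ • crs (V 1) (V 2) := by
    simp only [l, zero_add]
  have l1 : l 1 = Δ⁻¹ • crs (V 2) (V 0) := by
    simp only [l, e11, e12]
  have l2 : l 2 = Δ⁻¹ • crs (V 0) (V 1) := by
    simp only [l, e21, e22]
  have hexp0 : ∀ w, w = dt w (V 0) • l 0 + dt w (V 1) • l 1 + dt w (V 2) • l 2 := by
    intro w
    have h1 := expand (V 0) (V 1) (V 2) w
    rw [← hΔdef] at h1
    have h2 : w = Δ⁻¹ • (Δ • w) := by rw [smul_smul, inv_mul_cancel₀ hΔ, one_smul]
    conv_lhs => rw [h2, h1]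
    rw [l0, l1, l2]
    simp only [smul_add, smul_smul, mul_comm Δ⁻¹]
  have hexp : ∀ i w, dt w (V i) = 0 →
      w = dt w (V (i + 1)) • l (i + 1) + dt w (V (i + 2)) • l (i + 2) := by
    intro i w hw
    have h1 := hexp0 w
    rcases cases3 i with rfl | rfl | rfl
    · rw [hw, zero_smul, zero_add] at h1
      simpa only [zero_add] using h1
    · rw [hw, zero_smul, add_zero] at h1
      rw [e11, e12]
      conv_lhs => rw [h1]
      rw [add_comm]
    · rw [hw, zero_smul, add_zero] at h1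
      rw [e21, e22]
      exact h1
  have hrot : ∀ i, dt (V i) (crs (V (i + 1)) (V (i + 2))) = Δ := by
    intro i
    rcases cases3 i with rfl | rfl | rfl
    · simp only [zero_add]
      exact hΔdef.symm
    · rw [e11, e12, hΔdef, dt_rot (V 0)]
    · rw [e21, e22, hΔdef, dt_rot (V 0), dt_rot (V 1)]
  have hl : LinearIndependent ℚ l := by
    rw [Fintype.linearIndependent_iff]
    intro w hw
    have hdual : ∀ i j, dt (l i) (V j) = if i = j then 1 else 0 := by
      intro i j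
      have g1 : ∀ u v w : Fin 3 → ℚ, dt (crs u v) w = dt w (crs u v) := fun u v w => dt_comm _ _
      have g2 : ∀ u v : Fin 3 → ℚ, dt (crs u v) u = 0 := fun u v => by
        rw [g1]; exact (dt_self _ _).1
      have g3 : ∀ u v : Fin 3 → ℚ, dt (crs u v) v = 0 := fun u v => by
        rw [g1]; exact (dt_self _ _).2
      simp only [l]
      rw [dt_smul]
      by_cases hij : i = j
      · subst hij
        rw [if_pos rfl, g1, hrot, inv_mul_cancel₀ hΔ]
      · rw [if_neg hij]
        have : j = i + 1 ∨ j = i + 2 := by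
          clear * - hij
          revert hij
          fin_cases i <;> fin_cases j <;> decide
        rcases this with rfl | rfl
        · rw [g2, mul_zero]
        · rw [g3, mul_zero]
    intro k
    have h1 : dt (∑ i, w i • l i) (V k) = w k := by
      rw [Fin.sum_univ_three, dt_add, dt_add, dt_smul (w 0), dt_smul (w 1), dt_smul (w 2), hdual,
        hdual, hdual]
      rcases cases3 k with rfl | rfl | rfl <;> simp
    rw [hw] at h1
    rw [← h1]
    simp [dt]
  let s : Fin 3 → ℚ := fun i => dt (A i) (V (i + 1))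
  let t : Fin 3 → ℚ := fun i => dt (A i) (V (i + 2))
  let s' : Fin 3 → ℚ := fun i => dt (B i) (V (i + 1))
  let t' : Fin 3 → ℚ := fun i => dt (B i) (V (i + 2))
  have hA : ∀ i, A i = s i • l (i + 1) + t i • l (i + 2) := fun i => hexp i _ (hz i).1
  have hB : ∀ i, B i = s' i • l (i + 1) + t' i • l (i + 2) := fun i => hexp i _ (hz i).2
  have hs : ∀ i, s i ≠ 0 := fun i => hAV _ _ (by rcases cases3 i with rfl | rfl | rfl <;> decide)
  have ht : ∀ i, t i ≠ 0 := fun i => hAV _ _ (by rcases cases3 i with rfl | rfl | rfl <;> decide)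
  have hdet : ∀ i, s i * t' i - s' i * t i = Δ := by
    intro i
    have h1 := bc (A i) (B i) (V (i + 1)) (V (i + 2))
    rw [← hV, hrot] at h1
    exact h1
  have r1 : ∀ i, a i * (s i * t i) + b i * (s' i * t' i) = 0 := by
    intro i
    have h1 := rel2 A B a b hrel (V (i + 1)) (V (i + 2))
    rw [Fin.sum_univ_three] at h1
    simp only [s, t, s', t']
    rcases cases3 i with rfl | rfl | rfl
    · simp only [zero_add] at h1 ⊢
      rw [(hz 1).1, (hz 1).2, (hz 2).1, (hz 2).2] at h1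
      linear_combination h1
    · simp only [e11, e12] at h1 ⊢
      rw [(hz 2).1, (hz 2).2, (hz 0).1, (hz 0).2] at h1
      linear_combination h1
    · simp only [e21, e22] at h1 ⊢
      rw [(hz 0).1, (hz 0).2, (hz 1).1, (hz 1).2] at h1
      linear_combination h1
  let β : Fin 3 → ℚ := fun i => a i * s i ^ 2 + b i * s' i ^ 2
  let γ : Fin 3 → ℚ := fun i => a i * t i ^ 2 + b i * t' i ^ 2
  have r2 : ∀ i, β i + γ (i + 2) = 0 := by
    intro i
    have h1 := rel2 A B a b hrel (V (i + 1)) (V (i + 1))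
    rw [Fin.sum_univ_three] at h1
    simp only [β, γ, s, t, s', t']
    rcases cases3 i with rfl | rfl | rfl
    · simp only [zero_add, e22] at h1 ⊢
      rw [(hz 1).1, (hz 1).2] at h1
      linear_combination h1
    · simp only [e11, e12, zero_add] at h1 ⊢
      rw [(hz 2).1, (hz 2).2] at h1
      linear_combination h1
    · simp only [e21, e22, e12] at h1 ⊢
      rw [(hz 0).1, (hz 0).2] at h1
      linear_combination h1
  have hγ : ∀ i, γ i ≠ 0 := by
    intro i h0
    have h1 : a i * t i * Δ = 0 := by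
      rw [← hdet i]
      simp only [γ] at h0
      linear_combination t' i * r1 i - s' i * h0
    exact mul_ne_zero (mul_ne_zero (ha i) (ht i)) hΔ h1
  have hinj : ∀ r : ℚ, r ≠ 0 → algebraMap ℚ Ω r ≠ 0 := fun r hr =>
    (map_ne_zero_iff _ (algebraMap ℚ Ω).injective).2 hr
  let κ : Fin 3 → ℚ := fun k => (γ (k + 1))⁻¹
  have hκ : ∀ i, κ i ≠ 0 := fun i => inv_ne_zero (hγ _)
  let G : Fin 3 → Ω := fun k => algebraMap ℚ Ω (γ (k + 1)) * pr (l k) P Q
  have hG : ∀ i, G (i + 1) = G (i + 2) := by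
    intro i
    have h1 := h i
    have h2 : (algebraMap ℚ Ω (a i) * (algebraMap ℚ Ω (s i) * algebraMap ℚ Ω (t i)) +
        algebraMap ℚ Ω (b i) * (algebraMap ℚ Ω (s' i) * algebraMap ℚ Ω (t' i))) = 0 := by
      simpa only [map_add, map_mul, map_zero] using congrArg (algebraMap ℚ Ω) (r1 i)
    have h3 : (algebraMap ℚ Ω (a i) * algebraMap ℚ Ω (s i) ^ 2 +
        algebraMap ℚ Ω (b i) * algebraMap ℚ Ω (s' i) ^ 2) + algebraMap ℚ Ω (γ (i + 2)) = 0 := by
      simpa only [map_add, map_mul, map_zero, map_pow, β] using congrArg (algebraMap ℚ Ω) (r2 i)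
    have h4 : algebraMap ℚ Ω (γ i) = (algebraMap ℚ Ω (a i) * algebraMap ℚ Ω (t i) ^ 2 +
        algebraMap ℚ Ω (b i) * algebraMap ℚ Ω (t' i) ^ 2) := by
      simp only [γ, map_add, map_mul, map_pow]
    have q1 : i + 1 + 1 = i + 2 := by rcases cases3 i with rfl | rfl | rfl <;> decide
    have q2 : i + 2 + 1 = i := by rcases cases3 i with rfl | rfl | rfl <;> decide
    simp only [G]
    rw [q1, q2, h4]
    rw [hA i, hB i] at h1
    unfold pr at h1 ⊢
    rw [ev_comb, ev_comb, ev_comb, ev_comb] at h1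
    linear_combination ev (N := 2) (l (i + 1)) P * ev (N := 2) (l (i + 1)) Q * h3 - h1 +
      (ev (N := 2) (l (i + 1)) P * ev (N := 2) (l (i + 2)) Q +
        ev (N := 2) (l (i + 2)) P * ev (N := 2) (l (i + 1)) Q) * h2
  have hG0 : ∀ i, G i = G 0 := by
    intro i
    have g1 : G 1 = G 2 := by simpa only [zero_add] using hG 0
    have g2 : G 2 = G 0 := by simpa only [e11, e12] using hG 1
    rcases cases3 i with rfl | rfl | rfl
    · rfl
    · exact g1.trans g2
    · exact g2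
  have hb : ∀ i, pr (l i) P Q = G 0 * algebraMap ℚ Ω (κ i) := by
    intro i
    rw [← hG0 i]
    simp only [G, κ, map_inv₀]
    rw [mul_comm (algebraMap ℚ Ω (γ (i + 1))), mul_assoc, mul_inv_cancel₀ (hinj _ (hγ _)), mul_one]
  obtain ⟨c1, c2⟩ := core l hl s t κ hs ht hκ P Q hP hQ (G 0) hb A hA
  refine ⟨l, κ, hl, hκ, ?_, ?_, c1, c2⟩
  · intro i j
    rw [hb i, hb j]
    ring
  · intro i
    rw [hA i]
    exact add_mem (Submodule.smul_mem _ _ (Submodule.subset_span (by simp)))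
      (Submodule.smul_mem _ _ (Submodule.subset_span (by simp)))

theorem algb : AlgbStmt := by
  intro Ω _ _ H c P Q hp hV
  let A : Fin 3 → Fin 3 → ℚ := fun i => H ((![0, 2, 4] : Fin 3 → Fin 6) i)
  let B : Fin 3 → Fin 3 → ℚ := fun i => H ((![1, 3, 5] : Fin 3 → Fin 6) i)
  let a : Fin 3 → ℚ := fun i => c ((![0, 2, 4] : Fin 3 → Fin 6) i)
  let b : Fin 3 → ℚ := fun i => c ((![1, 3, 5] : Fin 3 → Fin 6) i)
  have h1 := cyc A B a b (fun i => hp.c0 _) (fun i => crs (A i) (B i)) (fun i => rfl)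
    (by
      have := det_ne hV
      exact this)
    (by
      intro i j hij
      apply det_ne
      apply hp.gp
      · revert hij
        fin_cases i <;> fin_cases j <;> decide
      · revert hij
        fin_cases i <;> fin_cases j <;> decide
      · clear hij
        fin_cases j <;> decide)
    (by
      intro j k
      have := hp.rel j k
      rw [Fin.sum_univ_six] at this
      rw [Fin.sum_univ_three]
      simp only [A, B, a, b, Matrix.cons_val]
      linear_combination this)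
    P Q hp.gP hp.gQ (by
      intro i
      rcases cases3 i with rfl | rfl | rfl
      · exact hp.h0
      · exact hp.h1
      · exact hp.h2)
  obtain ⟨l, κ, k1, k2, k3, k4, k5, k6⟩ := h1
  exact ⟨l, κ, k1, k2, k3, k4 0, k4 1, k4 2, k5, k6⟩

end Pool.Agent.Y734.I.ALGB
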